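import Pool.Agent.P.MP_f92abf_co.Main

/-! Dense sets whose sumset contains no coset of a large subspace: two parameters. -/

open Finset

namespace Pool.Agent.P.MP_f92abf_co

/-- A coset all of whose vectors have weight at most `w` has at most `2 ^ w` elements. -/
lemma card_coset_le {r w : ℕ} (U : Finset (Vec r)) (x : Vec r) (h0 : 0 ∈ U)
    (hadd : ∀ y ∈ U, ∀ z ∈ U, y + z ∈ U) (hw : ∀ y ∈ U, (supp (x + y)).card ≤ w) :
    U.card ≤ 2 ^ w := by
  obtain ⟨u, hu, hmax⟩ := exists_max_image U (fun y => (supp (x + y)).card) ⟨0, h0⟩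
  refine (card_le_card_of_injOn (t := (supp (x + u)).powerset) (fun y => supp y ∩ supp (x + u))
    (fun y _ => mem_coe.2 (mem_powerset.2 inter_subset_right)) fun y hy z hz hyz => ?_).trans
    (by rw [card_powerset]; exact Nat.pow_le_pow_right (by norm_num) (hw u hu))
  have hagree : ∀ i ∈ supp (x + u), y i = z i := fun i hi => by
    have : i ∈ supp y ∩ supp (x + u) ↔ i ∈ supp z ∩ supp (x + u) := by rw [show
      supp y ∩ supp (x + u) = supp z ∩ supp (x + u) from hyz]
    simp only [mem_inter, hi, and_true, mem_supp] at this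
    rcases zmod2_cases (y i) with h2 | h2 <;> rcases zmod2_cases (z i) with h3 | h3 <;> simp_all
  by_contra hne
  obtain ⟨i, hi⟩ := Function.ne_iff.mp hne
  refine (hmax _ (hadd u hu _ (hadd y hy z hz))).not_gt (card_lt_card
    ((ssubset_iff_of_subset fun k hk => ?_).2 ⟨i, ?_, fun h => hi (hagree i h)⟩))
  · rw [mem_supp, ← add_assoc, Pi.add_apply, Pi.add_apply y, hagree k hk,
      CharTwo.add_self_eq_zero, add_zero]
    exact (mem_supp _ _).1 hk
  · have hiu : (x + u) i = 0 := by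
      by_contra h
      exact hi (hagree i ((mem_supp _ _).2 h))
    rw [mem_supp, ← add_assoc, Pi.add_apply, hiu, zero_add, Pi.add_apply]
    rcases zmod2_cases (y i) with h2 | h2 <;> rcases zmod2_cases (z i) with h3 | h3 <;> simp_all

lemma card_sub {r : ℕ} (W : Submodule (ZMod 2) (Vec r)) [DecidablePred (· ∈ W)] :
    (univ.filter (· ∈ W)).card = 2 ^ Module.finrank (ZMod 2) W := by
  rw [← Fintype.card_subtype, Module.card_eq_pow_finrank (K := ZMod 2), ZMod.card]

open Classical in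
/-- Few sets of size `2 ^ w` cover all subspaces of dimension at most `w`. -/
lemma exists_family {r w s : ℕ} (hws : w + s = r) : ∃ F : Finset (Finset (Vec r)),
    F.card ≤ 2 ^ (r * s) ∧ (∀ U ∈ F, U.card ≤ 2 ^ w) ∧
      ∀ W : Submodule (ZMod 2) (Vec r), Module.finrank (ZMod 2) W ≤ w →
        ∃ U ∈ F, ∀ y ∈ W, y ∈ U := by
  refine ⟨(univ.filter fun φ : Vec r →ₗ[ZMod 2] Vec s => Function.Surjective φ).image
    fun φ => univ.filter (· ∈ LinearMap.ker φ), card_image_le.trans
      ((card_le_univ _).trans_eq ?_), fun U hU => ?_, fun W hW => ?_⟩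
  · rw [Module.card_eq_pow_finrank (K := ZMod 2), ZMod.card, Module.finrank_linearMap]
    simp
  · obtain ⟨φ, h, rfl⟩ := mem_image.1 hU
    have := φ.finrank_range_add_finrank_ker
    rw [LinearMap.range_eq_top.2 (mem_filter.1 h).2, finrank_top] at this
    simp only [Module.finrank_fintype_fun_eq_card, Fintype.card_fin] at this
    rw [card_sub]
    exact Nat.pow_le_pow_right (by norm_num) (by omega)
  · have h1 := W.finrank_quotient_add_finrank
    obtain ⟨g, hg⟩ := (finrank_le_iff_exists_linearMap (R := ZMod 2) (M := Vec s)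
      (M' := Vec r ⧸ W)).1 (by
        simp only [Module.finrank_fintype_fun_eq_card, Fintype.card_fin] at h1 ⊢
        omega)
    obtain ⟨k, hk⟩ := g.exists_leftInverse_of_injective (LinearMap.ker_eq_bot.2 hg)
    refine ⟨_, mem_image_of_mem _ (mem_filter.2 ⟨mem_univ (k ∘ₗ W.mkQ), ?_⟩), fun y hy => ?_⟩
    · exact Function.Surjective.comp (g := k) (fun z => ⟨g z, LinearMap.congr_fun hk z⟩)
        W.mkQ_surjective
    · simp [(Submodule.Quotient.mk_eq_zero W).2 hy]

open Classical in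
lemma card_indep {n d : ℕ} (V : Submodule (ZMod 2) (Vec n)) (hV : d ≤ Module.finrank (ZMod 2) V) :
    2 ^ ((d - 1) * d) ≤ (univ.filter fun v : Fin d → Vec n =>
      LinearIndependent (ZMod 2) v ∧ ∀ k, v k ∈ V).card := by
  rw [← Fintype.card_subtype, ← Nat.card_eq_fintype_card]
  refine le_trans ?_ (Nat.card_le_card_of_injective
    (fun v : {v : Fin d → V // LinearIndependent (ZMod 2) v} =>
      (⟨V.subtype ∘ v.1, v.2.map' V.subtype V.ker_subtype, fun k => (v.1 k).2⟩ :
        {v : Fin d → Vec n // LinearIndependent (ZMod 2) v ∧ ∀ k, v k ∈ V}))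
    fun v v' h => Subtype.ext (funext fun k => Subtype.ext (congrFun (congrArg Subtype.val h) k)))
  rw [card_linearIndependent hV, ZMod.card, pow_mul]
  refine le_trans (by simp) (pow_card_le_prod univ _ (2 ^ (d - 1)) fun i _ => ?_)
  have h0 := i.is_lt
  have h1 : 2 ^ (i : ℕ) ≤ 2 ^ (d - 1) := Nat.pow_le_pow_right (by norm_num) (by omega)
  have h2 : 2 ^ (d - 1 + 1) ≤ 2 ^ Module.finrank (ZMod 2) V :=
    Nat.pow_le_pow_right (by norm_num) (by omega)
  omega

open Classical in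
/-- A good family of linear maps. -/
lemma exists_maps' {n r d J w s : ℕ} (hws : w + s = r)
    (hnum : n * d + r * s * J < (d - 1) * d + s * d * J) :
    ∃ S : Fin J → (Vec n →ₗ[ZMod 2] Vec r), ∀ V : Submodule (ZMod 2) (Vec n),
      d ≤ Module.finrank (ZMod 2) V → ∃ j, w < Module.finrank (ZMod 2) (V.map (S j)) := by
  by_contra! hc
  obtain ⟨F, f1, f2, f3⟩ := exists_family hws
  set H := Fintype.card (Vec n →ₗ[ZMod 2] Vec r) with hH
  let b : (Fin d → Vec n) → Finset (Vec n →ₗ[ZMod 2] Vec r) := fun v =>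
    F.biUnion fun U => univ.filter fun L => ∀ k, L (v k) ∈ U
  have hb : ∀ v, LinearIndependent (ZMod 2) v → (b v).card ≤ 2 ^ (r * s) * H / 2 ^ (s * d) := by
    intro v hv
    rw [Nat.le_div_iff_mul_le (by positivity)]
    refine (Nat.mul_le_mul_right _ card_biUnion_le).trans ?_
    rw [sum_mul]
    refine (sum_le_card_nsmul _ _ H fun U hU => ?_).trans (Nat.mul_le_mul_right _ f1)
    refine Nat.le_of_mul_le_mul_right ?_ (show 0 < (2 ^ w) ^ d by positivity)
    rw [mul_assoc, pow_mul, ← mul_pow, ← pow_add, add_comm s, hws, card_maps v hv U, mul_comm]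
    exact Nat.mul_le_mul_left _ (Nat.pow_le_pow_left (f2 U hU) d)
  have key := card_mul_le_card_mul (s := univ)
    (t := univ.filter fun v : Fin d → Vec n => LinearIndependent (ZMod 2) v)
    (fun (S : Fin J → (Vec n →ₗ[ZMod 2] Vec r)) v => ∀ j, S j ∈ b v)
    (m := 2 ^ ((d - 1) * d)) (n := (2 ^ (r * s) * H / 2 ^ (s * d)) ^ J) (fun S _ => ?_)
    fun v hv => ?_
  · have h1 : (univ.filter fun v : Fin d → Vec n => LinearIndependent (ZMod 2) v).card ≤
        2 ^ (n * d) := (card_le_univ _).trans_eq (by simp [ZMod.card, pow_mul])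
    have h2 : (2 ^ (r * s) * H / 2 ^ (s * d)) ^ J * (2 ^ (s * d)) ^ J ≤ (2 ^ (r * s) * H) ^ J := by
      rw [← mul_pow]
      exact Nat.pow_le_pow_left (Nat.div_mul_le_self _ _) J
    have h3 : H ^ J * 2 ^ ((d - 1) * d + s * d * J) ≤ H ^ J * 2 ^ (n * d + r * s * J) :=
      calc _ = H ^ J * 2 ^ ((d - 1) * d) * (2 ^ (s * d)) ^ J := by
            rw [pow_add, pow_mul 2 (s * d), mul_assoc]
        _ ≤ 2 ^ (n * d) * (2 ^ (r * s) * H / 2 ^ (s * d)) ^ J * (2 ^ (s * d)) ^ J :=
            Nat.mul_le_mul_right _ (le_trans (by simp [hH]) (key.trans (Nat.mul_le_mul_right _ h1)))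
        _ ≤ 2 ^ (n * d) * (2 ^ (r * s) * H) ^ J := by
            rw [mul_assoc]
            exact Nat.mul_le_mul_left _ h2
        _ = _ := by
            rw [pow_add, pow_mul 2 (r * s), mul_pow]
            ring
    exact (Nat.pow_lt_pow_right (by norm_num) hnum).not_ge
      (Nat.le_of_mul_le_mul_left h3 (pow_pos Fintype.card_pos J))
  · obtain ⟨V, v1, v2⟩ := hc S
    refine (card_indep V v1).trans (card_le_card fun v hv => ?_)
    obtain ⟨-, h1, h2⟩ := mem_filter.1 hv
    refine (mem_bipartiteAbove _).2 ⟨mem_filter.2 ⟨mem_univ _, h1⟩, fun j => ?_⟩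
    obtain ⟨U, u1, u2⟩ := f3 _ (v2 j)
    exact mem_biUnion.2 ⟨U, u1, mem_filter.2 ⟨mem_univ _, fun k =>
      u2 _ (Submodule.mem_map_of_mem (h2 k))⟩⟩
  · refine (card_le_card (t := Fintype.piFinset fun _ => b v) fun S hS =>
      Fintype.mem_piFinset.2 ((mem_bipartiteBelow _).1 hS).2).trans ?_
    rw [Fintype.card_piFinset, prod_const, card_univ, Fintype.card_fin]
    exact Nat.pow_le_pow_left (hb v (mem_filter.1 hv).2) J

open Classical in
theorem core_coset (t d J n : ℕ) (hd : 32 * t ^ 2 ≤ d) (hn : n + 1 < d + t * J) (hd0 : 0 < d) :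
    ∃ A : Finset (Vec n), 2 ^ n ≤ 4 ^ J * A.card ∧
      ∀ V : Submodule (ZMod 2) (Vec n), d ≤ Module.finrank (ZMod 2) V → ∀ x,
        ∃ v ∈ V, ∀ a ∈ A, a + (x + v) ∉ A := by
  set m := 8 * t ^ 2 with hm
  have htm : t ≤ m := by nlinarith
  obtain ⟨S, hS⟩ := exists_maps' (n := n) (r := 2 * m) (d := d) (J := J) (w := 2 * (m - t))
    (s := 2 * t) (by omega) (by
      obtain ⟨e, rfl⟩ : ∃ e, d = e + 1 := ⟨d - 1, by omega⟩
      have h1 : n * (e + 1) < (e + t * J) * (e + 1) :=
        Nat.mul_lt_mul_of_pos_right (by omega) hd0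
      have h2 : 4 * m * (t * J) ≤ (e + 1) * (t * J) := Nat.mul_le_mul_right _ (by omega)
      rw [Nat.add_sub_cancel]
      nlinarith)
  obtain ⟨c, hc⟩ := exists_shift (fun j x => S j x) (ball m t)
  refine ⟨univ.filter fun x : Vec n => ∀ j, S j x + c j ∈ ball m t, ?_, fun V hV x => ?_⟩
  · refine Nat.le_of_mul_le_mul_left ?_ (show 0 < (2 ^ (2 * m)) ^ J by positivity)
    calc (2 ^ (2 * m)) ^ J * 2 ^ n ≤ (4 * (ball m t).card) ^ J * 2 ^ n :=
          Nat.mul_le_mul_right _ (Nat.pow_le_pow_left (card_ball m t (by omega)) J)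
      _ = 4 ^ J * (2 ^ n * (ball m t).card ^ J) := by ring
      _ ≤ _ := by
          rw [mul_left_comm ((2 ^ (2 * m)) ^ J)]
          exact Nat.mul_le_mul_left _ hc
  · by_contra! hcon
    obtain ⟨j, hj⟩ := hS V hV
    refine (Nat.pow_lt_pow_right (a := 2) (by norm_num) hj).not_ge ?_
    rw [← card_sub]
    refine card_coset_le _ (S j x) (mem_filter.2 ⟨mem_univ _, zero_mem _⟩)
      (fun y hy z hz => mem_filter.2 ⟨mem_univ _,
      add_mem (mem_filter.1 hy).2 (mem_filter.1 hz).2⟩) fun y hy => ?_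
    obtain ⟨u, hu, rfl⟩ := (mem_filter.1 hy).2
    obtain ⟨a, ha, hau⟩ := hcon u hu
    simp only [mem_filter, mem_univ, true_and, ball] at ha hau
    have h4 := supp_add_card_le (S j a + c j) (S j (a + (x + u)) + c j)
    rw [show S j a + c j + (S j (a + (x + u)) + c j) =
      S j x + S j u + (S j a + S j a) + (c j + c j) by simp only [map_add]; abel, add_self,
      add_self, add_zero, add_zero] at h4
    have h1 := ha j
    have h2 := hau j
    omega

theorem main_coset (d s n : ℕ) (hd : 40000 ≤ d) (hs : 2 ≤ s) (hn : (n : ℝ) ≤ d + s * √d / 20) :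
    ∃ A : Finset (Fin n → ZMod 2), (2 : ℝ) ^ (-(s : ℝ)) ≤ (A.card : ℝ) / 2 ^ n ∧
      ¬ ∃ (V : Submodule (ZMod 2) (Fin n → ZMod 2)) (x : Fin n → ZMod 2),
        d ≤ Module.finrank (ZMod 2) V ∧ ∀ v ∈ V, ∃ a ∈ A, ∃ b ∈ A, a + b = x + v := by
  have h1 : (200 : ℝ) ≤ √d := Real.le_sqrt_of_sq_le (by exact_mod_cast hd)
  have h2 : √d * √d = d := Real.mul_self_sqrt d.cast_nonneg
  set t := ⌊√d * (7 / 40)⌋₊ with ht
  have t1 : (t : ℝ) ≤ √d * (7 / 40) := Nat.floor_le (by positivity)
  have t2 : √d * (7 / 40) < t + 1 := Nat.lt_floor_add_one _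
  have t3 : (s : ℝ) ≤ 3 * (s / 2 : ℕ) := by exact_mod_cast (by omega : s ≤ 3 * (s / 2))
  have t4 : (2 : ℝ) ≤ s := by exact_mod_cast hs
  obtain ⟨A, a1, a2⟩ := core_coset t d (s / 2) n
    (by
      have : 32 * (t : ℝ) ^ 2 ≤ d := by nlinarith [(t.cast_nonneg : (0 : ℝ) ≤ t)]
      exact_mod_cast this)
    (by
      have : √d / 6 * (s / 3) ≤ (t : ℝ) * (s / 2 : ℕ) :=
        mul_le_mul (by linarith) (by linarith) (by positivity) t.cast_nonneg
      have : (n : ℝ) + 1 < d + t * (s / 2 : ℕ) := by nlinarith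
      exact_mod_cast this) (by omega)
  refine ⟨A, ?_, ?_⟩
  · rw [Real.rpow_neg (by norm_num), Real.rpow_natCast, le_div_iff₀ (by positivity),
      inv_mul_le_iff₀ (by positivity)]
    have : 4 ^ (s / 2) ≤ 2 ^ s := by
      rw [show 4 = 2 ^ 2 by norm_num, ← pow_mul]
      exact Nat.pow_le_pow_right (by norm_num) (by omega)
    exact_mod_cast a1.trans (Nat.mul_le_mul_right _ this)
  · rintro ⟨V, x, v1, v2⟩
    obtain ⟨v, hv, h⟩ := a2 V v1 x
    obtain ⟨a, ha, b, hb, e⟩ := v2 v hv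
    exact h a ha (by rw [← e, ← add_assoc, add_self, zero_add]; exact hb)

end Pool.Agent.P.MP_f92abf_co
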