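import Mathlib

open Finset

namespace Pool.Agent.P.MP_f92abf_co

abbrev Vec (r : ℕ) := Fin r → ZMod 2

/-- support -/
def supp {r : ℕ} (y : Vec r) : Finset (Fin r) := univ.filter (fun i => y i ≠ 0)

lemma mem_supp {r : ℕ} (y : Vec r) (i : Fin r) : i ∈ supp y ↔ y i ≠ 0 := by
  simp [supp]

lemma zmod2_cases (a : ZMod 2) : a = 0 ∨ a = 1 := by
  revert a; decide

lemma add_self {r : ℕ} (y : Vec r) : y + y = 0 := by
  funext i
  exact CharTwo.add_self_eq_zero (y i)

lemma supp_inj {r : ℕ} : Function.Injective (supp : Vec r → Finset (Fin r)) := by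
  intro y z h
  funext i
  have h1 : y i ≠ 0 ↔ z i ≠ 0 := by rw [← mem_supp, ← mem_supp, h]
  rcases zmod2_cases (y i) with h2 | h2 <;> rcases zmod2_cases (z i) with h3 | h3 <;>
    simp_all

lemma supp_add_card_le {r : ℕ} (y z : Vec r) :
    (supp (y + z)).card ≤ (supp y).card + (supp z).card := by
  refine le_trans (card_le_card ?_) (card_union_le _ _)
  intro i hi
  rw [mem_union, mem_supp, mem_supp]
  rw [mem_supp] at hi
  by_contra hc
  push Not at hc
  apply hi
  simp [hc.1, hc.2]

lemma supp_add_one {r : ℕ} (y : Vec r) :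
    (supp (y + 1)).card + (supp y).card = r := by
  have h : supp (y + 1) = (supp y)ᶜ := by
    ext i
    rw [mem_compl, mem_supp, mem_supp]
    rcases zmod2_cases (y i) with h2 | h2
    · simp [h2]
    · simp only [Pi.add_apply, Pi.one_apply, h2]
      decide
  rw [h, card_compl]
  have := card_le_univ (supp y)
  simp only [Fintype.card_fin] at this ⊢
  omega

/-- A subspace all of whose vectors have weight at most `w` has at most `2 ^ w` elements. -/
lemma card_le_of_weight {r w : ℕ} (U : Finset (Vec r)) (hne : U.Nonempty)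
    (hadd : ∀ y ∈ U, ∀ z ∈ U, y + z ∈ U) (hw : ∀ y ∈ U, (supp y).card ≤ w) :
    U.card ≤ 2 ^ w := by
  obtain ⟨u, hu, hmax⟩ := exists_max_image U (fun y => (supp y).card) hne
  have h1 : U.card ≤ (supp u).powerset.card := by
    refine card_le_card_of_injOn (fun y => supp y ∩ supp u) ?_ ?_
    · intro y _
      simp only [coe_powerset, Set.mem_preimage, Set.mem_powerset_iff, coe_subset]
      exact inter_subset_right
    · intro y hy z hz hyz
      simp only at hyz
      by_contra hne'
      have hyU : y + z ∈ U := hadd y hy z hz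
      have hU2 : u + (y + z) ∈ U := hadd u hu _ hyU
      have hagree : ∀ i ∈ supp u, y i = z i := by
        intro i hi
        have : i ∈ supp y ∩ supp u ↔ i ∈ supp z ∩ supp u := by rw [hyz]
        simp only [mem_inter, hi, and_true, mem_supp] at this
        rcases zmod2_cases (y i) with h2 | h2 <;> rcases zmod2_cases (z i) with h3 | h3 <;>
          simp_all
      have hss : supp u ⊂ supp (u + (y + z)) := by
        rw [ssubset_iff_of_subset]
        · obtain ⟨i, hi⟩ := Function.ne_iff.mp hne'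
          have hiu : i ∉ supp u := fun h => hi (hagree i h)
          refine ⟨i, ?_, hiu⟩
          rw [mem_supp] at hiu ⊢
          push Not at hiu
          simp only [Pi.add_apply, hiu, zero_add]
          rcases zmod2_cases (y i) with h2 | h2 <;> rcases zmod2_cases (z i) with h3 | h3 <;>
            simp_all
        · intro i hi
          have h2 := hagree i hi
          rw [mem_supp] at hi ⊢
          simp only [Pi.add_apply, h2, CharTwo.add_self_eq_zero, add_zero]
          exact hi
      have h3 := card_lt_card hss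
      have h4 := hmax _ hU2
      omega
  rw [card_powerset] at h1
  exact h1.trans (Nat.pow_le_pow_right (by norm_num) (hw u hu))

lemma centralBinom_sq (m : ℕ) : (2 * m + 1) * m.centralBinom ^ 2 ≤ 16 ^ m := by
  induction m with
  | zero => simp
  | succ m ih =>
    have h := Nat.succ_mul_centralBinom_succ m
    have h1 : (m + 1) ^ 2 * ((2 * (m + 1) + 1) * (m + 1).centralBinom ^ 2) ≤
        (m + 1) ^ 2 * 16 ^ (m + 1) := by
      calc (m + 1) ^ 2 * ((2 * (m + 1) + 1) * (m + 1).centralBinom ^ 2)
          = (2 * m + 3) * ((m + 1) * (m + 1).centralBinom) ^ 2 := by ring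
        _ = (2 * m + 3) * (2 * (2 * m + 1) * m.centralBinom) ^ 2 := by rw [h]
        _ = (4 * ((2 * m + 3) * (2 * m + 1))) * ((2 * m + 1) * m.centralBinom ^ 2) := by ring
        _ ≤ (4 * ((2 * m + 2) * (2 * m + 2))) * 16 ^ m := by
          apply Nat.mul_le_mul _ ih
          nlinarith
        _ = (m + 1) ^ 2 * 16 ^ (m + 1) := by ring
    exact Nat.le_of_mul_le_mul_left h1 (by positivity)

/-- the niveau set -/
def ball (m t : ℕ) : Finset (Vec (2 * m)) := univ.filter (fun y => (supp y).card + t ≤ m)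

lemma card_weight_le (m k : ℕ) :
    (univ.filter (fun y : Vec (2 * m) => (supp y).card = k)).card ≤ m.centralBinom := by
  have h1 : (univ.filter (fun y : Vec (2 * m) => (supp y).card = k)).card ≤
      (powersetCard k (univ : Finset (Fin (2 * m)))).card := by
    refine card_le_card_of_injOn supp ?_ (supp_inj.injOn)
    intro y hy
    simp only [coe_filter, mem_univ, true_and, Set.mem_ofPred_eq] at hy
    simp [mem_powersetCard, hy]
  rw [card_powersetCard, card_univ, Fintype.card_fin] at h1
  exact h1.trans (Nat.choose_le_centralBinom k m)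

lemma card_ball (m t : ℕ) (h : 16 * t ^ 2 ≤ 2 * m + 1) : 2 ^ (2 * m) ≤ 4 * (ball m t).card := by
  have hcover : (univ : Finset (Vec (2 * m))) ⊆ ball m t ∪ (ball m t).image (fun y => y + 1) ∪
      (range (2 * t)).biUnion
        (fun i => univ.filter (fun y : Vec (2 * m) => (supp y).card + t = m + i)) := by
    intro y _
    simp only [mem_union, mem_image, mem_biUnion, mem_range, mem_filter, mem_univ, true_and, ball]
    by_cases h1 : (supp y).card + t ≤ m
    · exact Or.inl (Or.inl h1)
    by_cases h2 : m + t ≤ (supp y).card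
    · refine Or.inl (Or.inr ⟨y + 1, ?_, ?_⟩)
      · have := supp_add_one y
        omega
      · rw [add_assoc, add_self, add_zero]
    · refine Or.inr ⟨(supp y).card + t - m, by omega, by omega⟩
  have h1 := card_le_card hcover
  have h2 : ((range (2 * t)).biUnion
        (fun i => univ.filter (fun y : Vec (2 * m) => (supp y).card + t = m + i))).card ≤
        2 * t * m.centralBinom := by
    refine le_trans card_biUnion_le ?_
    refine le_trans (sum_le_card_nsmul _ _ m.centralBinom ?_) (by simp)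
    intro i _
    refine le_trans (card_le_card ?_) (card_weight_le m (m + i - t))
    intro y hy
    simp only [mem_filter, mem_univ, true_and] at hy ⊢
    omega
  have h3 := card_union_le (ball m t ∪ (ball m t).image (fun y => y + 1))
    ((range (2 * t)).biUnion
        (fun i => univ.filter (fun y : Vec (2 * m) => (supp y).card + t = m + i)))
  have h4 := card_union_le (ball m t) ((ball m t).image (fun y => y + 1))
  have h5 : ((ball m t).image (fun y => y + 1)).card ≤ (ball m t).card := card_image_le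
  have h6 : (univ : Finset (Vec (2 * m))).card = 2 ^ (2 * m) := by
    simp [card_univ, ZMod.card]
  have h7 : 4 * t * m.centralBinom ≤ 2 ^ (2 * m) := by
    have h8 : (4 * t * m.centralBinom) ^ 2 ≤ (2 ^ (2 * m)) ^ 2 := by
      calc (4 * t * m.centralBinom) ^ 2 = 16 * t ^ 2 * m.centralBinom ^ 2 := by ring
        _ ≤ (2 * m + 1) * m.centralBinom ^ 2 := Nat.mul_le_mul_right _ h
        _ ≤ 16 ^ m := centralBinom_sq m
        _ = (2 ^ (2 * m)) ^ 2 := by
          rw [← pow_mul, show (16 : ℕ) = 2 ^ 4 by norm_num, ← pow_mul]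
          congr 1; ring
    exact (Nat.pow_le_pow_iff_left (by norm_num)).mp h8
  have h9 : 4 * t * m.centralBinom = 2 * (2 * t * m.centralBinom) := by ring
  omega

/-- averaging over shifts -/
lemma exists_shift {n r J : ℕ} (S : Fin J → Vec n → Vec r) (B : Finset (Vec r)) :
    ∃ c : Fin J → Vec r, 2 ^ n * B.card ^ J ≤
      (2 ^ r) ^ J * (univ.filter (fun x : Vec n => ∀ j, S j x + c j ∈ B)).card := by
  have hsum : ∑ c : Fin J → Vec r, (univ.filter (fun x : Vec n => ∀ j, S j x + c j ∈ B)).card
      = 2 ^ n * B.card ^ J := by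
    simp only [card_filter]
    rw [sum_comm]
    have : ∀ x : Vec n, (∑ c : Fin J → Vec r, if ∀ j, S j x + c j ∈ B then 1 else 0)
        = B.card ^ J := by
      intro x
      rw [← card_filter]
      have h1 : univ.filter (fun c : Fin J → Vec r => ∀ j, S j x + c j ∈ B) =
          Fintype.piFinset (fun j => B.image (fun y => y - S j x)) := by
        ext c
        simp only [mem_filter, mem_univ, true_and, Fintype.mem_piFinset, mem_image]
        refine forall_congr' (fun j => ⟨fun h => ⟨_, h, by abel⟩, ?_⟩)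
        rintro ⟨y, hy, hc⟩
        rw [← hc]
        simpa using hy
      rw [h1, Fintype.card_piFinset]
      rw [prod_congr rfl (fun j _ => card_image_of_injective B (sub_left_injective))]
      simp
    rw [sum_congr rfl (fun x _ => this x)]
    simp [card_univ, ZMod.card]
  by_contra hc
  push Not at hc
  have hcard : (univ : Finset (Fin J → Vec r)).card = (2 ^ r) ^ J := by
    simp [card_univ, ZMod.card]
  have h2 : ∑ c : Fin J → Vec r,
      (2 ^ r) ^ J * (univ.filter (fun x : Vec n => ∀ j, S j x + c j ∈ B)).card <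
      ∑ _c : Fin J → Vec r, 2 ^ n * B.card ^ J :=
    sum_lt_sum_of_nonempty univ_nonempty (fun c _ => hc c)
  rw [← mul_sum, hsum, sum_const, hcard, smul_eq_mul] at h2
  exact lt_irrefl _ h2

noncomputable instance homFintype (n r : ℕ) : Fintype (Vec n →ₗ[ZMod 2] Vec r) :=
  @Fintype.ofFinite _ (DFunLike.finite _)

open Classical in
/-- counting linear maps sending an independent family into a set -/
lemma card_maps {n r d : ℕ} (v : Fin d → Vec n) (hv : LinearIndependent (ZMod 2) v)
    (U : Finset (Vec r)) :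
    (univ.filter (fun L : Vec n →ₗ[ZMod 2] Vec r => ∀ k, L (v k) ∈ U)).card * (2 ^ r) ^ d =
      U.card ^ d * Fintype.card (Vec n →ₗ[ZMod 2] Vec r) := by
  let φ : (Vec n →ₗ[ZMod 2] Vec r) →+ (Fin d → Vec r) :=
    { toFun := fun L k => L (v k)
      map_zero' := by funext k; simp
      map_add' := by intro L M; funext k; simp }
  have hφ : ∀ L k, φ L k = L (v k) := fun _ _ => rfl
  have hsurj : Function.Surjective φ := by
    intro w
    obtain ⟨g, hg⟩ := LinearMap.exists_extend ((Module.Basis.span hv).constr (ZMod 2) w)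
    refine ⟨g, ?_⟩
    funext k
    rw [hφ]
    have h1 := LinearMap.congr_fun hg (Module.Basis.span hv k)
    rw [Module.Basis.constr_basis] at h1
    rw [← h1]
    simp [Module.Basis.span_apply]
  set f := (univ.filter (fun L : Vec n →ₗ[ZMod 2] Vec r => φ L = 0)).card with hf
  have hfib : ∀ w, (univ.filter (fun L : Vec n →ₗ[ZMod 2] Vec r => φ L = w)).card = f := by
    intro w
    exact AddMonoidHom.card_fiber_eq_of_mem_range φ (hsurj w) (hsurj 0)
  have hP : ∀ P : Finset (Fin d → Vec r),
      (univ.filter (fun L : Vec n →ₗ[ZMod 2] Vec r => φ L ∈ P)).card = P.card * f := by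
    intro P
    rw [card_eq_sum_card_fiberwise (f := φ) (t := P)]
    · rw [sum_congr rfl (g := fun _ => f)]
      · simp
      · intro w hw
        rw [← hfib w]
        congr 1
        ext L
        simp only [mem_filter, mem_univ, true_and]
        exact ⟨fun h => h.2, fun h => ⟨h ▸ hw, h⟩⟩
    · intro L hL
      simpa using hL
  have h1 := hP univ
  have h2 := hP (Fintype.piFinset (fun _ => U))
  have h3 : (univ : Finset (Fin d → Vec r)).card = (2 ^ r) ^ d := by
    simp [card_univ, ZMod.card]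
  rw [h3] at h1
  simp only [mem_univ, filter_true, card_univ] at h1
  have h4 : univ.filter (fun L : Vec n →ₗ[ZMod 2] Vec r => ∀ k, L (v k) ∈ U) =
      univ.filter (fun L : Vec n →ₗ[ZMod 2] Vec r => φ L ∈ Fintype.piFinset (fun _ => U)) := by
    ext L
    simp [hφ]
  rw [h4, h2, h1, Fintype.card_piFinset]
  simp only [prod_const, card_univ, Fintype.card_fin]
  ring

open Classical in
/-- existence of a good family of linear maps -/
lemma exists_maps {n r d J w s : ℕ} (hws : w + s = r) (hnum : n * d + J * 2 ^ r < J * (s * d)) :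
    ∃ S : Fin J → (Vec n →ₗ[ZMod 2] Vec r), ∀ v : Fin d → Vec n,
      LinearIndependent (ZMod 2) v → ∃ j, ∀ U : Finset (Vec r), U.card ≤ 2 ^ w →
        ∃ k, S j (v k) ∉ U := by
  set H := Fintype.card (Vec n →ₗ[ZMod 2] Vec r) with hH
  have hHpos : 0 < H := Fintype.card_pos
  let b : (Fin d → Vec n) → Finset (Vec n →ₗ[ZMod 2] Vec r) := fun v =>
    (univ.filter (fun U : Finset (Vec r) => U.card ≤ 2 ^ w)).biUnion
      (fun U => univ.filter (fun L => ∀ k, L (v k) ∈ U))
  have hb : ∀ v, LinearIndependent (ZMod 2) v → (b v).card * 2 ^ (s * d) ≤ 2 ^ (2 ^ r) * H := by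
    intro v hv
    have h1 : (b v).card ≤ ∑ U ∈ univ.filter (fun U : Finset (Vec r) => U.card ≤ 2 ^ w),
        (univ.filter (fun L : Vec n →ₗ[ZMod 2] Vec r => ∀ k, L (v k) ∈ U)).card :=
      card_biUnion_le
    have h2 : ∀ U ∈ univ.filter (fun U : Finset (Vec r) => U.card ≤ 2 ^ w),
        (univ.filter (fun L : Vec n →ₗ[ZMod 2] Vec r => ∀ k, L (v k) ∈ U)).card * 2 ^ (s * d)
          ≤ H := by
      intro U hU
      have hU' : U.card ≤ 2 ^ w := (mem_filter.mp hU).2
      have h3 := card_maps v hv U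
      have h4 : (2 ^ r) ^ d = 2 ^ (s * d) * (2 ^ w) ^ d := by
        rw [← hws, ← pow_mul, ← pow_mul, ← pow_add]
        congr 1; ring
      have h5 : (univ.filter (fun L : Vec n →ₗ[ZMod 2] Vec r => ∀ k, L (v k) ∈ U)).card *
          2 ^ (s * d) * (2 ^ w) ^ d ≤ H * (2 ^ w) ^ d := by
        rw [mul_assoc, ← h4, h3, mul_comm]
        exact Nat.mul_le_mul_left _ (Nat.pow_le_pow_left hU' d)
      exact Nat.le_of_mul_le_mul_right h5 (by positivity)
    have h6 : (univ.filter (fun U : Finset (Vec r) => U.card ≤ 2 ^ w)).card ≤ 2 ^ (2 ^ r) := by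
      refine le_trans (card_le_univ _) (le_of_eq ?_)
      simp [ZMod.card]
    calc (b v).card * 2 ^ (s * d)
        ≤ (∑ U ∈ univ.filter (fun U : Finset (Vec r) => U.card ≤ 2 ^ w),
          (univ.filter (fun L : Vec n →ₗ[ZMod 2] Vec r => ∀ k, L (v k) ∈ U)).card)
            * 2 ^ (s * d) := Nat.mul_le_mul_right _ h1
      _ = ∑ U ∈ univ.filter (fun U : Finset (Vec r) => U.card ≤ 2 ^ w),
          (univ.filter (fun L : Vec n →ₗ[ZMod 2] Vec r => ∀ k, L (v k) ∈ U)).card
            * 2 ^ (s * d) := sum_mul _ _ _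
      _ ≤ (univ.filter (fun U : Finset (Vec r) => U.card ≤ 2 ^ w)).card • H :=
          sum_le_card_nsmul _ _ _ h2
      _ ≤ 2 ^ (2 ^ r) * H := by
          rw [smul_eq_mul]
          exact Nat.mul_le_mul_right _ h6
  let Bad : Finset (Fin J → (Vec n →ₗ[ZMod 2] Vec r)) :=
    (univ.filter (fun v : Fin d → Vec n => LinearIndependent (ZMod 2) v)).biUnion
      (fun v => Fintype.piFinset (fun _ => b v))
  have hBad : Bad.card * (2 ^ (s * d)) ^ J ≤ 2 ^ (n * d) * (2 ^ (2 ^ r) * H) ^ J := by
    have h1 : Bad.card ≤ ∑ v ∈ univ.filter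
        (fun v : Fin d → Vec n => LinearIndependent (ZMod 2) v),
        (Fintype.piFinset (fun _ : Fin J => b v)).card := card_biUnion_le
    have h2 : ∀ v ∈ univ.filter (fun v : Fin d → Vec n => LinearIndependent (ZMod 2) v),
        (Fintype.piFinset (fun _ : Fin J => b v)).card * (2 ^ (s * d)) ^ J ≤
          (2 ^ (2 ^ r) * H) ^ J := by
      intro v hv
      rw [Fintype.card_piFinset]
      simp only [prod_const, card_univ, Fintype.card_fin]
      rw [← mul_pow]
      exact Nat.pow_le_pow_left (hb v (mem_filter.mp hv).2) J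
    have h3 : (univ.filter (fun v : Fin d → Vec n => LinearIndependent (ZMod 2) v)).card
        ≤ 2 ^ (n * d) := by
      refine le_trans (card_le_univ _) (le_of_eq ?_)
      simp [ZMod.card, pow_mul]
    calc Bad.card * (2 ^ (s * d)) ^ J
        ≤ (∑ v ∈ univ.filter (fun v : Fin d → Vec n => LinearIndependent (ZMod 2) v),
          (Fintype.piFinset (fun _ : Fin J => b v)).card) * (2 ^ (s * d)) ^ J :=
          Nat.mul_le_mul_right _ h1
      _ = ∑ v ∈ univ.filter (fun v : Fin d → Vec n => LinearIndependent (ZMod 2) v),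
          (Fintype.piFinset (fun _ : Fin J => b v)).card * (2 ^ (s * d)) ^ J := sum_mul _ _ _
      _ ≤ (univ.filter (fun v : Fin d → Vec n => LinearIndependent (ZMod 2) v)).card •
          (2 ^ (2 ^ r) * H) ^ J := sum_le_card_nsmul _ _ _ h2
      _ ≤ 2 ^ (n * d) * (2 ^ (2 ^ r) * H) ^ J := by
          rw [smul_eq_mul]
          exact Nat.mul_le_mul_right _ h3
  have hlt : Bad.card < (univ : Finset (Fin J → (Vec n →ₗ[ZMod 2] Vec r))).card := by
    have h1 : (univ : Finset (Fin J → (Vec n →ₗ[ZMod 2] Vec r))).card = H ^ J := by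
      simp [card_univ, hH]
    rw [h1]
    have h2 : 2 ^ (n * d) * (2 ^ (2 ^ r) * H) ^ J < H ^ J * (2 ^ (s * d)) ^ J := by
      rw [mul_pow, ← mul_assoc, ← pow_mul, ← pow_mul, ← pow_add, mul_comm (H ^ J)]
      refine Nat.mul_lt_mul_of_pos_right ?_ (by positivity)
      refine Nat.pow_lt_pow_right (by norm_num) ?_
      rw [mul_comm (2 ^ r) J, mul_comm (s * d) J]
      exact hnum
    exact Nat.lt_of_mul_lt_mul_right (lt_of_le_of_lt hBad h2)
  obtain ⟨S, -, hS⟩ := exists_mem_notMem_of_card_lt_card hlt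
  refine ⟨S, fun v hv => ?_⟩
  by_contra hc
  push Not at hc
  apply hS
  simp only [Bad, mem_biUnion, mem_filter, mem_univ, true_and, Fintype.mem_piFinset, b]
  exact ⟨v, hv, hc⟩

open Classical in
theorem core (K d n : ℕ) (hn : n ≤ K * d) (hd : 2 ^ (2 * (8 * (2 * K + 1) ^ 2)) ≤ d) :
    ∃ A : Finset (Vec n), 2 ^ n ≤ 2 ^ d * A.card ∧
      ∀ V : Submodule (ZMod 2) (Vec n), d ≤ Module.finrank (ZMod 2) V →
        ∃ v ∈ V, ∀ a ∈ A, a + v ∉ A := by
  set t := 2 * K + 1 with ht
  set m := 8 * t ^ 2 with hm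
  have htm : t ≤ m := by nlinarith
  have hm1 : 1 ≤ m := by omega
  have hd2 : 2 ≤ d := by
    refine le_trans ?_ hd
    calc 2 = 2 ^ 1 := by norm_num
      _ ≤ 2 ^ (2 * m) := Nat.pow_le_pow_right (by norm_num) (by omega)
  set J := d / 2 with hJ
  have hJ1 : 1 ≤ J := by omega
  have hJ2 : d ≤ 3 * J := by omega
  have hJ3 : 2 * J ≤ d := by omega
  have hnum : n * d + J * 2 ^ (2 * m) < J * (2 * t * d) := by
    have h1 : n * d ≤ 3 * K * (J * d) := by
      calc n * d ≤ K * d * d := Nat.mul_le_mul_right _ hn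
        _ ≤ K * (3 * J) * d := Nat.mul_le_mul_right _ (Nat.mul_le_mul_left _ hJ2)
        _ = 3 * K * (J * d) := by ring
    have h2 : J * 2 ^ (2 * m) ≤ J * d := Nat.mul_le_mul_left _ hd
    have h3 : 0 < J * d := by positivity
    have h4 : J * (2 * t * d) = 4 * K * (J * d) + 2 * (J * d) := by rw [ht]; ring
    have h5 : 3 * K * (J * d) ≤ 4 * K * (J * d) :=
      Nat.mul_le_mul_right _ (Nat.mul_le_mul_right _ (by norm_num))
    omega
  obtain ⟨S, hS⟩ := exists_maps (n := n) (r := 2 * m) (d := d) (J := J) (w := 2 * (m - t))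
    (s := 2 * t) (by omega) hnum
  obtain ⟨c, hc⟩ := exists_shift (fun j x => S j x) (ball m t)
  refine ⟨univ.filter (fun x : Vec n => ∀ j, S j x + c j ∈ ball m t), ?_, ?_⟩
  · have h1 := card_ball m t (by omega)
    have h2 : (2 ^ (2 * m)) ^ J ≤ 4 ^ J * (ball m t).card ^ J := by
      rw [← mul_pow]
      exact Nat.pow_le_pow_left h1 J
    have h3 : 4 ^ J ≤ 2 ^ d := by
      rw [show (4 : ℕ) = 2 ^ 2 by norm_num, ← pow_mul]
      exact Nat.pow_le_pow_right (by norm_num) hJ3
    set N := (univ.filter (fun x : Vec n => ∀ j, S j x + c j ∈ ball m t)).card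
    have h4 : (2 ^ (2 * m)) ^ J * 2 ^ n ≤ (2 ^ (2 * m)) ^ J * (2 ^ d * N) := by
      calc (2 ^ (2 * m)) ^ J * 2 ^ n ≤ (4 ^ J * (ball m t).card ^ J) * 2 ^ n :=
            Nat.mul_le_mul_right _ h2
        _ = 4 ^ J * (2 ^ n * (ball m t).card ^ J) := by ring
        _ ≤ 2 ^ d * ((2 ^ (2 * m)) ^ J * N) := Nat.mul_le_mul h3 hc
        _ = (2 ^ (2 * m)) ^ J * (2 ^ d * N) := by ring
    exact Nat.le_of_mul_le_mul_left h4 (by positivity)
  · intro V hV
    by_contra hcon
    push Not at hcon
    obtain ⟨f, hf⟩ := exists_linearIndependent_of_le_finrank hV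
    have hli : LinearIndependent (ZMod 2) (V.subtype ∘ f) :=
      hf.map' V.subtype (Submodule.ker_subtype V)
    obtain ⟨j, hj⟩ := hS _ hli
    have hcardU : (univ.filter (fun y : Vec (2 * m) => ∃ v ∈ V, S j v = y)).card
        ≤ 2 ^ (2 * (m - t)) := by
      apply card_le_of_weight
      · exact ⟨0, by simpa using ⟨0, V.zero_mem, by simp⟩⟩
      · intro y hy z hz
        simp only [mem_filter, mem_univ, true_and] at hy hz ⊢
        obtain ⟨u, hu, rfl⟩ := hy
        obtain ⟨w, hw, rfl⟩ := hz
        exact ⟨u + w, V.add_mem hu hw, map_add _ _ _⟩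
      · intro y hy
        simp only [mem_filter, mem_univ, true_and] at hy
        obtain ⟨u, hu, rfl⟩ := hy
        obtain ⟨a, ha, hau⟩ := hcon u hu
        simp only [mem_filter, mem_univ, true_and, ball] at ha hau
        have h1 := ha j
        have h2 := hau j
        have h3 : S j u = (S j a + c j) + (S j (a + u) + c j) := by
          rw [map_add]
          have e1 : S j a + S j a = 0 := add_self _
          have e2 : c j + c j = 0 := add_self _
          calc S j u = S j u + (S j a + S j a) + (c j + c j) := by rw [e1, e2]; simp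
            _ = (S j a + c j) + (S j a + S j u + c j) := by abel
        have h4 := supp_add_card_le (S j a + c j) (S j (a + u) + c j)
        rw [← h3] at h4
        omega
    obtain ⟨k, hk⟩ := hj _ hcardU
    apply hk
    simp only [mem_filter, mem_univ, true_and]
    exact ⟨_, (f k).2, rfl⟩

theorem main (C : ℝ) (_hC : 0 < C) : ∃ d₀ : ℕ, ∀ d : ℕ, d₀ ≤ d → ∀ n : ℕ, n ≤ ⌈C * d⌉₊ →
    ∃ A : Finset (Fin n → ZMod 2),
      (2 : ℝ) ^ (-(d : ℝ)) ≤ (A.card : ℝ) / 2 ^ n ∧
      ¬ ∃ V : Submodule (ZMod 2) (Fin n → ZMod 2),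
        d ≤ Module.finrank (ZMod 2) V ∧ ∀ v ∈ V, ∃ a ∈ A, a + v ∈ A := by
  refine ⟨2 ^ (2 * (8 * (2 * ⌈C⌉₊ + 1) ^ 2)), fun d hd n hn0 => ?_⟩
  have hn : ⌈C * d⌉₊ ≤ ⌈C⌉₊ * d := by
    rw [Nat.ceil_le]
    push_cast
    exact mul_le_mul_of_nonneg_right (Nat.le_ceil C) (Nat.cast_nonneg d)
  obtain ⟨A, hA, hV⟩ := core ⌈C⌉₊ d n (hn0.trans hn) hd
  refine ⟨A, ?_, ?_⟩
  · rw [Real.rpow_neg (by norm_num), Real.rpow_natCast, le_div_iff₀ (by positivity),
      inv_mul_le_iff₀ (by positivity)]
    exact_mod_cast hA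
  · rintro ⟨V, hVd, hVA⟩
    obtain ⟨v, hv, hva⟩ := hV V hVd
    obtain ⟨a, ha, hav⟩ := hVA v hv
    exact hva a ha hav

end Pool.Agent.P.MP_f92abf_co
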