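import Pool.Agent.P.MP_f92abf_co.Main

theorem Pool.Agent.P.MP_f92abf_co.VariantNoLinearBound.result :
    ∀ C : ℝ, 0 < C → ∃ d₀ : ℕ, ∀ d : ℕ, d₀ ≤ d → ∀ n : ℕ, n ≤ ⌈C * d⌉₊ →
      ∃ A : Finset (Fin n → ZMod 2),
        (2 : ℝ) ^ (-(d : ℝ)) ≤ (A.card : ℝ) / 2 ^ n ∧
        (¬ ∃ V : Submodule (ZMod 2) (Fin n → ZMod 2),
          d ≤ Module.finrank (ZMod 2) V ∧ ∀ v ∈ V, ∃ a ∈ A, a + v ∈ A) ∧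
        (¬ ∃ V : Submodule (ZMod 2) (Fin n → ZMod 2),
          d ≤ Module.finrank (ZMod 2) V ∧ ∀ v ∈ V, ∃ a ∈ A, a ∉ V ∧ a + v ∈ A) := by
  intro C hC
  obtain ⟨d₀, h⟩ := Pool.Agent.P.MP_f92abf_co.main C hC
  refine ⟨d₀, fun d hd n hn => ?_⟩
  obtain ⟨A, hA, hV⟩ := h d hd n hn
  refine ⟨A, hA, hV, ?_⟩
  rintro ⟨V, hVd, hVA⟩
  refine hV ⟨V, hVd, fun v hv => ?_⟩
  obtain ⟨a, ha, -, hav⟩ := hVA v hv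
  exact ⟨a, ha, hav⟩
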